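import Pool.Agent.MWNP.Stmts

/-!
# Block MWNP, row PH8 (MP_23468a_al): without `D 0` the system `S8` holds, arbitrary period
-/

set_option autoImplicit false

namespace Pool.Agent.MWNP.H62

open Pool.Agent.Helper14_MV Pool.Agent.Helper2_MV Pool.Agent.MVO Pool.Agent.MWL Pool.Agent.MWS
  Pool.Agent.MWF Pool.Agent.MWN

/-- exchange of the letters `0` and `1` -/
def sw (c : ℕ) : List ℕ := if c = 0 then [1] else if c = 1 then [0] else [c]

/-- exchange of the letters `0` and `1`, the letter `3` deleted -/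
def sw3 (c : ℕ) : List ℕ := if c = 0 then [1] else if c = 1 then [0] else if c = 3 then [] else [c]

/-- exchange of the letters `0` and `1`, the letter `2` deleted, `3` becomes `2` -/
def sw2 (c : ℕ) : List ℕ :=
  if c = 0 then [1] else if c = 1 then [0] else if c = 2 then [] else if c = 3 then [2] else [c]

/-- the letter `2` becomes `1^m 2` -/
def ins (m : ℕ) (c : ℕ) : List ℕ := if c = 2 then List.replicate m 1 ++ [2] else [c]

/-- two blocks -/
def b2 (l m : List ℕ) : ℕ → List ℕ := fun j => if j = 0 then l else if j = 1 then m else []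

theorem two_b2 {l m : List ℕ} (h : ∀ c ∈ l ++ m, c = 0 ∨ c = 1) : Two01 1 (b2 l m) := by
  intro j hj c hc
  have hj' : j = 0 ∨ j = 1 := by omega
  rcases hj' with rfl | rfl
  · exact h c (List.mem_append_left _ hc)
  · exact h c (List.mem_append_right _ hc)

theorem ok_b2 {l m : List ℕ} (h : ∀ c ∈ l ++ m, c = 0 ∨ c = 1)
    (h0 : 2 ≤ (l ++ m).count 0) (h1 : 2 ≤ (l ++ m).count 1) : OkB 1 (b2 l m) := by
  have e : ∀ c, deg 1 (ty (b2 l m) c) = (l ++ m).count c := by
    intro c
    rw [List.count_append]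
    simp [deg, Finset.sum_range_succ, ty, b2]
  constructor
  · intro j hj c hc hs
    have := two_b2 h j hj c hc
    omega
  · intro j hj c hc
    have h2 := two_b2 h j hj c hc
    have h3 : 2 ≤ deg 1 (ty (b2 l m) c) := by
      rcases h2 with rfl | rfl
      · rw [e]; exact h0
      · rw [e]; exact h1
    exact h3

theorem hst2 {n : ℕ} {β : FIC} (hB : HBP n β) {l m l' m' : List ℕ}
    (h : ∀ c ∈ l ++ m, c = 0 ∨ c = 1) (h' : ∀ c ∈ l' ++ m', c = 0 ∨ c = 1)
    (h0 : 2 ≤ (l ++ m).count 0) (h1 : 2 ≤ (l ++ m).count 1)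
    (h0' : 2 ≤ (l' ++ m').count 0) (h1' : 2 ≤ (l' ++ m').count 1)
    (e0 : l.count 0 = l'.count 0 ∨ (2 ≤ l.count 0 ∧ 2 ≤ l'.count 0 ∧
      l.count 0 ≡ l'.count 0 [MOD n]))
    (e1 : l.count 1 = l'.count 1 ∨ (2 ≤ l.count 1 ∧ 2 ≤ l'.count 1 ∧
      l.count 1 ≡ l'.count 1 [MOD n]))
    (e2 : m.count 0 = m'.count 0 ∨ (2 ≤ m.count 0 ∧ 2 ≤ m'.count 0 ∧
      m.count 0 ≡ m'.count 0 [MOD n]))
    (e3 : m.count 1 = m'.count 1 ∨ (2 ≤ m.count 1 ∧ 2 ≤ m'.count 1 ∧
      m.count 1 ≡ m'.count 1 [MOD n]))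
    (s0 : (Fst false l ↔ Fst false l') ∧ (Fst true l ↔ Fst true l'))
    (s1 : (Fst false m ↔ Fst false m') ∧ (Fst true m ↔ Fst true m')) :
    RR β (l ++ 2 :: m) (l' ++ 2 :: m') := by
  have key := hB.hst 1 (b2 l m) (b2 l' m') (ok_b2 h h0 h1) (ok_b2 h' h0' h1') (two_b2 h)
    (two_b2 h') (by
      intro j hj
      have hj' : j = 0 ∨ j = 1 := by omega
      rcases hj' with rfl | rfl
      · exact e0
      · exact e2) (by
      intro j hj
      have hj' : j = 0 ∨ j = 1 := by omega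
      rcases hj' with rfl | rfl
      · exact e1
      · exact e3) (by
      intro j hj _
      have hj' : j = 0 ∨ j = 1 := by omega
      rcases hj' with rfl | rfl
      · exact s0
      · exact s1)
  exact key

/-- the block `0 1 1^m` -/
def bA (m : ℕ) : List ℕ := [0, 1] ++ List.replicate m 1

/-- the block `1 0 1^m` -/
def bB (m : ℕ) : List ℕ := [1, 0] ++ List.replicate m 1

theorem fA (m : ℕ) : Fst false (bA m) ∧ ¬ Fst true (bA m) := by
  refine ⟨?_, ?_⟩
  · intro h
    have hp : List.Pairwise (· ≤ ·) (bA m) := by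
      unfold bA
      rw [List.pairwise_append]
      refine ⟨by decide, List.pairwise_replicate.2 (Or.inr (le_refl 1)), ?_⟩
      intro a ha b hb
      rw [List.eq_of_mem_replicate hb]
      simp only [List.mem_cons, List.not_mem_nil, or_false] at ha
      omega
    have h2 := hp.sublist h
    revert h2
    decide
  · intro h
    exact h (List.sublist_append_left [0, 1] _)

theorem fB (m : ℕ) (hm : 1 ≤ m) : ¬ Fst false (bB m) ∧ ¬ Fst true (bB m) := by
  refine ⟨?_, ?_⟩
  · intro h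
    exact h (List.sublist_append_left [1, 0] _)
  · intro h
    refine h ?_
    have h1 : List.Sublist [0] [1, 0] := by decide
    have h2 : List.Sublist [1] (List.replicate m 1) := by
      rw [List.singleton_sublist, List.mem_replicate]
      exact ⟨by omega, rfl⟩
    exact h1.append h2

theorem cA0 (m : ℕ) : (bA m).count 0 = 1 := by
  simp [bA, List.count_replicate]

theorem cA1 (m : ℕ) : (bA m).count 1 = m + 1 := by
  simp [bA]

theorem cB0 (m : ℕ) : (bB m).count 0 = 1 := by
  simp [bB, List.count_replicate]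

theorem cB1 (m : ℕ) : (bB m).count 1 = m + 1 := by
  simp [bB]

theorem mA (m : ℕ) : ∀ c ∈ bA m, c = 0 ∨ c = 1 := by
  intro c hc
  simp only [bA, List.mem_append, List.mem_cons, List.not_mem_nil, or_false,
    List.mem_replicate] at hc
  omega

theorem mB (m : ℕ) : ∀ c ∈ bB m, c = 0 ∨ c = 1 := by
  intro c hc
  simp only [bB, List.mem_append, List.mem_cons, List.not_mem_nil, or_false,
    List.mem_replicate] at hc
  omega

theorem md (n : ℕ) : 1 + 1 ≡ (2 * n + 1) + 1 [MOD n] := by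
  have : (2 * n + 1) + 1 = (1 + 1) + n * 2 := by ring
  rw [this]
  exact (Nat.add_mul_mod_self_left _ _ _).symm

theorem hA1 {n : ℕ} {β : FIC} (hB : HBP n β) :
    RR β ([0] ++ 2 :: bA 1) ([0] ++ 2 :: bA (2 * n + 1)) := by
  have hn := hB.pos
  apply hst2 hB
  · intro c hc
    rcases List.mem_append.1 hc with h | h
    · exact Or.inl (List.mem_singleton.1 h)
    · exact mA _ c h
  · intro c hc
    rcases List.mem_append.1 hc with h | h
    · exact Or.inl (List.mem_singleton.1 h)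
    · exact mA _ c h
  · rw [List.count_append, cA0]; simp
  · rw [List.count_append, cA1]; simp
  · rw [List.count_append, cA0]; simp
  · rw [List.count_append, cA1]; simp
  · exact Or.inl rfl
  · exact Or.inl rfl
  · left; rw [cA0, cA0]
  · right; rw [cA1, cA1]; exact ⟨by omega, by omega, md n⟩
  · exact ⟨Iff.rfl, Iff.rfl⟩
  · exact ⟨iff_of_true (fA _).1 (fA _).1, iff_of_false (fA _).2 (fA _).2⟩

theorem hB1 {n : ℕ} {β : FIC} (hB : HBP n β) :
    RR β ([0] ++ 2 :: bB 1) ([0] ++ 2 :: bB (2 * n + 1)) := by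
  have hn := hB.pos
  apply hst2 hB
  · intro c hc
    rcases List.mem_append.1 hc with h | h
    · exact Or.inl (List.mem_singleton.1 h)
    · exact mB _ c h
  · intro c hc
    rcases List.mem_append.1 hc with h | h
    · exact Or.inl (List.mem_singleton.1 h)
    · exact mB _ c h
  · rw [List.count_append, cB0]; simp
  · rw [List.count_append, cB1]; simp
  · rw [List.count_append, cB0]; simp
  · rw [List.count_append, cB1]; simp
  · exact Or.inl rfl
  · exact Or.inl rfl
  · left; rw [cB0, cB0]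
  · right; rw [cB1, cB1]; exact ⟨by omega, by omega, md n⟩
  · exact ⟨Iff.rfl, Iff.rfl⟩
  · exact ⟨iff_of_false (fB _ (by omega)).1 (fB _ (by omega)).1,
      iff_of_false (fB _ (by omega)).2 (fB _ (by omega)).2⟩

theorem hA2 {n : ℕ} {β : FIC} (hB : HBP n β) :
    RR β (bA 1 ++ 2 :: [0]) (bA (2 * n + 1) ++ 2 :: [0]) := by
  have hn := hB.pos
  apply hst2 hB
  · intro c hc
    rcases List.mem_append.1 hc with h | h
    · exact mA _ c h
    · exact Or.inl (List.mem_singleton.1 h)
  · intro c hc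
    rcases List.mem_append.1 hc with h | h
    · exact mA _ c h
    · exact Or.inl (List.mem_singleton.1 h)
  · rw [List.count_append, cA0]; simp
  · rw [List.count_append, cA1]; simp
  · rw [List.count_append, cA0]; simp
  · rw [List.count_append, cA1]; simp
  · left; rw [cA0, cA0]
  · right; rw [cA1, cA1]; exact ⟨by omega, by omega, md n⟩
  · exact Or.inl rfl
  · exact Or.inl rfl
  · exact ⟨iff_of_true (fA _).1 (fA _).1, iff_of_false (fA _).2 (fA _).2⟩
  · exact ⟨Iff.rfl, Iff.rfl⟩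

theorem hB2 {n : ℕ} {β : FIC} (hB : HBP n β) :
    RR β (bB 1 ++ 2 :: [0]) (bB (2 * n + 1) ++ 2 :: [0]) := by
  have hn := hB.pos
  apply hst2 hB
  · intro c hc
    rcases List.mem_append.1 hc with h | h
    · exact mB _ c h
    · exact Or.inl (List.mem_singleton.1 h)
  · intro c hc
    rcases List.mem_append.1 hc with h | h
    · exact mB _ c h
    · exact Or.inl (List.mem_singleton.1 h)
  · rw [List.count_append, cB0]; simp
  · rw [List.count_append, cB1]; simp
  · rw [List.count_append, cB0]; simp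
  · rw [List.count_append, cB1]; simp
  · left; rw [cB0, cB0]
  · right; rw [cB1, cB1]; exact ⟨by omega, by omega, md n⟩
  · exact Or.inl rfl
  · exact Or.inl rfl
  · exact ⟨iff_of_false (fB _ (by omega)).1 (fB _ (by omega)).1,
      iff_of_false (fB _ (by omega)).2 (fB _ (by omega)).2⟩
  · exact ⟨Iff.rfl, Iff.rfl⟩

theorem ph8 (n1a : P1aStmt) (n2x : P2xStmt) (n3a : P3aStmt) (n3b : P3bStmt) (n3c : P3cStmt)
    (n3d : P3dStmt) : Ph8Stmt := by
  intro n β hB hI hM hD
  have c1t : RR β [0, 0, 1, 2, 1, 1] [0, 1, 0, 2, 1, 1] :=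
    RR.sub sw (n1a n β hB hI hM hD true)
  have c1f : RR β [1, 0, 0, 2, 1, 1] [0, 1, 0, 2, 1, 1] :=
    RR.sub sw (n1a n β hB hI hM hD false)
  have c3at : RR β [0, 1, 1, 2, 0, 3, 1, 1] [1, 0, 1, 2, 0, 3, 1, 1] :=
    RR.sub sw (n3a n β hB hI hM hD true)
  have c3af : RR β [1, 1, 0, 2, 0, 3, 1, 1] [1, 0, 1, 2, 0, 3, 1, 1] :=
    RR.sub sw (n3a n β hB hI hM hD false)
  have c3bt : RR β [0, 2, 0, 1, 1, 1, 1] [0, 2, 1, 0, 1, 1, 1] :=
    RR.sub sw3 (n3b n β hB hI hM hD true)
  have c3ct : RR β [0, 1, 1, 1, 1, 2, 0] [1, 0, 1, 1, 1, 2, 0] :=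
    RR.sub sw2 (n3c n β hB hI hM hD true)
  have c3dt : RR β [1, 1, 2, 0, 3, 0, 1, 1] [1, 1, 2, 0, 3, 1, 0, 1] :=
    RR.sub sw (n3d n β hB hI hM hD true)
  have c3df : RR β [1, 1, 2, 0, 3, 1, 1, 0] [1, 1, 2, 0, 3, 1, 0, 1] :=
    RR.sub sw (n3d n β hB hI hM hD false)
  have hn := hB.pos
  obtain ⟨q, rfl⟩ : ∃ q, n = q + 1 := ⟨n - 1, by omega⟩
  refine ⟨β.trans c1t (RR.symm c1f), n2x _ β hB hI hM hD, β.trans c3at (RR.symm c3af), ?_,
    n3b _ β hB hI hM hD false, ?_, n3c _ β hB hI hM hD false, β.trans c3dt (RR.symm c3df)⟩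
  · have h0 : RR β ([0] ++ 2 :: bA (2 * (q + 1) + 1)) ([0] ++ 2 :: bB (2 * (q + 1) + 1)) := by
      have h := c3bt.append (RR.refl (β := β) (List.replicate (2 * q) 1))
      have e1 : ([0, 2, 0, 1, 1, 1, 1] : List ℕ) ++ List.replicate (2 * q) 1 =
          [0] ++ 2 :: bA (2 * (q + 1) + 1) := by
        have : 2 * (q + 1) + 1 = 2 * q + 3 := by ring
        rw [this]
        simp [bA, List.replicate_succ]
      have e2 : ([0, 2, 1, 0, 1, 1, 1] : List ℕ) ++ List.replicate (2 * q) 1 =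
          [0] ++ 2 :: bB (2 * (q + 1) + 1) := by
        have : 2 * (q + 1) + 1 = 2 * q + 3 := by ring
        rw [this]
        simp [bB, List.replicate_succ]
      rw [e1, e2] at h
      exact h
    exact β.trans (hA1 hB) (β.trans h0 (RR.symm (hB1 hB)))
  · have h0 : RR β (bA (2 * (q + 1) + 1) ++ 2 :: [0]) (bB (2 * (q + 1) + 1) ++ 2 :: [0]) := by
      have h := RR.sub (ins (2 * q)) c3ct
      have e1 : ([0, 1, 1, 1, 1, 2, 0] : List ℕ).flatMap (ins (2 * q)) =
          bA (2 * (q + 1) + 1) ++ 2 :: [0] := by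
        have : 2 * (q + 1) + 1 = 2 * q + 3 := by ring
        rw [this]
        simp [bA, ins, List.replicate_succ]
      have e2 : ([1, 0, 1, 1, 1, 2, 0] : List ℕ).flatMap (ins (2 * q)) =
          bB (2 * (q + 1) + 1) ++ 2 :: [0] := by
        have : 2 * (q + 1) + 1 = 2 * q + 3 := by ring
        rw [this]
        simp [bB, ins, List.replicate_succ]
      rw [e1, e2] at h
      exact h
    exact β.trans (hA2 hB) (β.trans h0 (RR.symm (hB2 hB)))

end Pool.Agent.MWNP.H62
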